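import Pool.Agent.helper11.RPQ.SpecI
import Pool.Agent.helper3.RPQ.MEX

/-!
# Row rpi:MEW (MP_07c750_an): measurability for general parameters (adapted from MEX, helper3)
-/

set_option autoImplicit false

open scoped MatrixGroups ContDiff Topology UpperHalfPlane ComplexConjugate
open UpperHalfPlane MeasureTheory Filter Set

namespace Pool.Agent.RPQ

open Pool.Agent.RS
open Pool.Agent.MS (BA BB st pf gk Dk amk)

noncomputable section

section

theorem MEW_aux1 {Ω X Y Z : Type} [MeasurableSpace Ω] [MeasurableSpace X] [MeasurableSpace Y] [MeasurableSpace Z]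
    (V : Ω → Z → ℝ) (hV : Measurable (Function.uncurry V)) (f : X × Y → Z) (hf : Measurable f) :
    Measurable fun p : (Ω × X) × Y => V p.1.1 (f (p.1.2, p.2)) := by
  have h1 : Measurable fun p : (Ω × X) × Y => (p.1.1, f (p.1.2, p.2)) :=
    (measurable_fst.comp measurable_fst).prodMk (hf.comp ((measurable_snd.comp measurable_fst).prodMk measurable_snd))
  exact hV.comp h1

theorem MEW_aux2 {Ω X Y Z : Type} [MeasurableSpace Ω] [MeasurableSpace X] [MeasurableSpace Y] [MeasurableSpace Z]
    (f : X × Y → Z) (hf : Measurable f) : Measurable fun p : (Ω × X) × Y => f (p.1.2, p.2) :=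
  hf.comp ((measurable_snd.comp measurable_fst).prodMk measurable_snd)

variable {Ω : Type} [MeasurableSpace Ω] (V : Ω → ℍ → ℝ)

theorem MEW_th (hV : Measurable (Function.uncurry V)) (K t : ℝ) :
    Measurable fun q : Ω × SL(2, ℝ) => th (V q.1) K t q.2 := by
  have : SecondCountableTopology SL(2, ℝ) := GLC.2.1
  have haM : Continuous aM := GLC.2.2.2.1
  unfold th
  refine Measurable.const_mul ?_ K
  have h0 : Measurable fun p : (Ω × SL(2, ℝ)) × ℝ => V p.1.1 ((p.1.2 * aM p.2) • (I : ℍ)) := by
    have h2 : Measurable fun r : SL(2, ℝ) × ℝ => (r.1 * aM r.2) • (I : ℍ) := by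
      refine Continuous.measurable ?_
      exact (continuous_fst.mul (haM.comp continuous_snd)).smul continuous_const
    exact MEW_aux1 V hV _ h2
  unfold intervalIntegral
  refine Measurable.sub ?_ ?_
  · exact (h0.stronglyMeasurable.integral_prod_right' (ν := volume.restrict (Ioc 0 t))).measurable
  · exact (h0.stronglyMeasurable.integral_prod_right' (ν := volume.restrict (Ioc t 0))).measurable

variable (K t : ℝ) (u : SL(2, ℝ) → ℂ) (A : Set SL(2, ℝ))

theorem MEW_st (hV : Measurable (Function.uncurry V)) (hu : Measurable u) :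
    Measurable fun p : (Ω × SL(2, ℝ)) × SL(2, ℝ) => stK (V p.1.1) K t u p.1.2 p.2 := by
  have : SecondCountableTopology SL(2, ℝ) := GLC.2.1
  have h1 : Measurable fun q : Ω × SL(2, ℝ) => th (V q.1) K t q.2 := MEW_th V hV K t
  have h3 : Measurable fun r : SL(2, ℝ) × SL(2, ℝ) => (r.1 * aM t)⁻¹ * r.2 := by
    refine Continuous.measurable ?_
    exact ((continuous_fst.mul continuous_const).inv).mul continuous_snd
  have h2 : Measurable fun p : (Ω × SL(2, ℝ)) × SL(2, ℝ) => (p.1.2 * aM t)⁻¹ * p.2 := MEW_aux2 _ h3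
  unfold stK
  refine Measurable.mul ?_ (hu.comp h2)
  refine Complex.measurable_exp.comp ?_
  refine Measurable.mul_const ?_ _
  exact Complex.measurable_ofReal.comp (h1.comp measurable_fst)

theorem MEW_cmp (hs : SigmaFinite mG) (f g : Ω → SL(2, ℝ) → SL(2, ℝ) → ℂ)
    (hf : Measurable fun p : (Ω × SL(2, ℝ)) × SL(2, ℝ) => f p.1.1 p.1.2 p.2)
    (hg : Measurable fun p : (Ω × SL(2, ℝ)) × SL(2, ℝ) => g p.1.1 p.1.2 p.2) :
    Measurable fun p : (Ω × SL(2, ℝ)) × SL(2, ℝ) => cmp (f p.1.1) (g p.1.1) p.1.2 p.2 := by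
  unfold cmp
  have h1 : Measurable fun q : ((Ω × SL(2, ℝ)) × SL(2, ℝ)) × SL(2, ℝ) =>
      f q.1.1.1 q.1.1.2 q.2 * g q.1.1.1 q.2 q.1.2 := by
    refine Measurable.mul ?_ ?_
    · exact hf.comp ((measurable_fst.comp measurable_fst).prodMk measurable_snd)
    · exact hg.comp (((measurable_fst.comp (measurable_fst.comp measurable_fst)).prodMk measurable_snd).prodMk
        (measurable_snd.comp measurable_fst))
  exact (h1.stronglyMeasurable.integral_prod_right' (ν := mG)).measurable

theorem MEW_it (hs : SigmaFinite mG) (hV : Measurable (Function.uncurry V)) (hu : Measurable u) (n : ℕ) :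
    Measurable fun p : (Ω × SL(2, ℝ)) × SL(2, ℝ) => itK (V p.1.1) K t u n p.1.2 p.2 := by
  induction n with
  | zero => exact MEW_st V K t u hV hu
  | succ n ih => exact MEW_cmp hs (fun ξ => stK (V ξ) K t u) (fun ξ => itK (V ξ) K t u n) (MEW_st V K t u hV hu) ih

theorem MEW_wd (hs : SigmaFinite mG) (hV : Measurable (Function.uncurry V)) (hu : Measurable u) (hA : MeasurableSet A)
    (l : List ℕ) :
    Measurable fun p : (Ω × SL(2, ℝ)) × SL(2, ℝ) => wdK (V p.1.1) K t u A l p.1.2 p.2 := by
  have hi : Measurable (A.indicator (fun _ => (1 : ℂ))) := measurable_const.indicator hA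
  induction l with
  | nil => exact measurable_const
  | cons n l ih =>
    cases l with
    | nil =>
      show Measurable fun p : (Ω × SL(2, ℝ)) × SL(2, ℝ) =>
        A.indicator (fun _ => (1 : ℂ)) p.1.2 * itK (V p.1.1) K t u n p.1.2 p.2 * A.indicator (fun _ => (1 : ℂ)) p.2
      exact ((hi.comp (measurable_snd.comp measurable_fst)).mul (MEW_it V K t u hs hV hu n)).mul (hi.comp measurable_snd)
    | cons m l =>
      show Measurable fun p : (Ω × SL(2, ℝ)) × SL(2, ℝ) =>
        cmp (fun g h => A.indicator (fun _ => (1 : ℂ)) g * itK (V p.1.1) K t u n g h)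
          (wdK (V p.1.1) K t u A (m :: l)) p.1.2 p.2
      exact MEW_cmp hs (fun ξ g h => A.indicator (fun _ => (1 : ℂ)) g * itK (V ξ) K t u n g h)
        (fun ξ => wdK (V ξ) K t u A (m :: l))
        ((hi.comp (measurable_snd.comp measurable_fst)).mul (MEW_it V K t u hs hV hu n)) ih

end

theorem MEW_proof : MEW_stmt := by
  intro Γ F K t u A l Ω _ V hΓ hF hV hVI hu huB huD hA hAΓ
  have : SecondCountableTopology SL(2, ℝ) := GLC.2.1
  have hs : SigmaFinite mG := (GMG GLC).2.2.1
  have := hs
  have : Countable Γ := MEX_count hΓ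
  have hW := MEW_wd V K t u A hs hV hu hA l
  -- the sum over `Γ`
  have hper : Measurable fun p : (Ω × SL(2, ℝ)) × SL(2, ℝ) =>
      perK Γ (wdK (V p.1.1) K t u A l) p.1.2 p.2 := by
    refine measurable_of_tendsto_metrizable' (f := fun (s : Finset Γ) (p : (Ω × SL(2, ℝ)) × SL(2, ℝ)) =>
      ∑ γ ∈ s, wdK (V p.1.1) K t u A l p.1.2 ((γ : SL(2, ℝ)) * p.2)) atTop ?_ ?_
    · intro s
      refine Finset.measurable_sum s fun γ _ => ?_
      have h1 : Measurable fun p : (Ω × SL(2, ℝ)) × SL(2, ℝ) => (p.1, (γ : SL(2, ℝ)) * p.2) := by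
        refine measurable_fst.prodMk ?_
        exact (continuous_const.mul continuous_id).measurable.comp measurable_snd
      exact hW.comp h1
    · rw [tendsto_pi_nhds]
      intro p
      obtain ⟨D, hD⟩ := MEX_R_wd (V p.1.1) K t u A huD l
      have hfin : (Function.support fun γ : Γ => wdK (V p.1.1) K t u A l p.1.2 ((γ : SL(2, ℝ)) * p.2)).Finite := by
        refine (MEX_fin hΓ D p.1.2 p.2).subset ?_
        intro γ hγ
        exact hD _ _ hγ
      refine tendsto_nhds_of_eventually_eq ?_
      filter_upwards [eventually_ge_atTop hfin.toFinset] with s hs'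
      rw [perK]
      symm
      refine finsum_eq_sum_of_support_subset _ ?_
      intro γ hγ
      exact Finset.mem_coe.mpr (hs' (hfin.mem_toFinset.mpr hγ))
  have h2 : Measurable fun p : (Ω × SL(2, ℝ)) × SL(2, ℝ) =>
      ‖perK Γ (wdK (V p.1.1) K t u A l) p.1.2 p.2‖ₑ ^ 2 := hper.enorm.pow_const 2
  have h3 : Measurable fun q : Ω × SL(2, ℝ) =>
      ∫⁻ h in dG F, ‖perK Γ (wdK (V q.1) K t u A l) q.2 h‖ₑ ^ 2 ∂mG := h2.lintegral_prod_right'
  exact h3.lintegral_prod_right'

end

end Pool.Agent.RPQ
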